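import Pool.Agent.Helper922.HB.Sc.Alt

/-! Singular cohomology. -/

namespace Pool.Agent.Helper922.HB.Sc

universe u v w

/-- Working form of singular cohomology. -/
abbrev SingCoh (k : Type v) [CommRing k] (X : Type u) [TopologicalSpace X] (n : ℕ) : Type (max u v) :=
  Coh k (fun n => Sing X n → k) (fun n => altd k (sface (X := X)) n) n

theorem coboundaries_eq (k : Type v) [CommRing k] (X : Type u) [TopologicalSpace X] (n : ℕ) :
    coboundaries k X n =
      cobound k (fun n => Sing X n → k) (fun n => altd k (sface (X := X)) n) n := by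
  cases n <;> rfl

/-- comparison of the two forms of singular cohomology -/
theorem singEquiv (k : Type v) [CommRing k] (X : Type u) [TopologicalSpace X] (n : ℕ) :
    Nonempty (SingularCohomology k X n ≃ₗ[k] SingCoh k X n) := by
  cases n with
  | zero => exact ⟨LinearEquiv.refl k _⟩
  | succ n => exact ⟨LinearEquiv.refl k _⟩

theorem rank_singularCohomology (k : Type v) [CommRing k] (X : Type u) [TopologicalSpace X]
    (n : ℕ) : Module.rank k (SingularCohomology k X n) = Module.rank k (SingCoh k X n) := by
  obtain ⟨e⟩ := singEquiv k X n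
  exact e.rank_eq

theorem finrank_singularCohomology (k : Type v) [CommRing k] (X : Type u) [TopologicalSpace X]
    (n : ℕ) : Module.finrank k (SingularCohomology k X n) = Module.finrank k (SingCoh k X n) := by
  obtain ⟨e⟩ := singEquiv k X n
  exact e.finrank_eq

theorem sface_sface {X : Type u} [TopologicalSpace X] (n : ℕ) (i j : Fin (n + 2))
    (σ : Sing X (n + 2)) (h : i ≤ j) :
    sface n i (sface (n + 1) j.succ σ) = sface n j (sface (n + 1) i.castSucc σ) := by
  apply ContinuousMap.ext
  intro x
  simp only [sface, ContinuousMap.comp_apply, ContinuousMap.coe_mk, stdSimplex.map_comp_apply]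
  congr 2
  funext y
  exact succAbove_comm i j h y

theorem range_sface {X : Type u} [TopologicalSpace X] (n : ℕ) (i : Fin (n + 2))
    (σ : Sing X (n + 1)) : Set.range (sface n i σ) ⊆ Set.range σ := by
  rintro _ ⟨x, rfl⟩
  exact ⟨_, rfl⟩

end Pool.Agent.Helper922.HB.Sc
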